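import Mathlib

set_option autoImplicit false

/-!
From coloured graphs to graphs, with few new edges.
-/

namespace Pool.Agent.Q144.EG

/-- vertices: those of `V`, a path `z_0, …, z_{t+1}`, the hub (`false`) and its leaf (`true`) -/
abbrev LW (V : Type) (t : ℕ) : Type := V ⊕ (Fin (t + 2) ⊕ Bool)

section
variable {V : Type} {t : ℕ} (E : SimpleGraph V) (col : V → Fin t)

/-- adjacency -/
def lrel : LW V t → LW V t → Prop
  | .inl v, .inl w => E.Adj v w
  | .inl v, .inr (.inl i) => (col v).val = i.val
  | .inr (.inl i), .inl v => (col v).val = i.val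
  | .inl _, .inr (.inr b) => b = false
  | .inr (.inr b), .inl _ => b = false
  | .inr (.inl i), .inr (.inl j) => i.val + 1 = j.val ∨ j.val + 1 = i.val
  | .inr (.inl _), .inr (.inr _) => False
  | .inr (.inr _), .inr (.inl _) => False
  | .inr (.inr b), .inr (.inr c) => b ≠ c

/-- the graph -/
def lg : SimpleGraph (LW V t) where
  Adj := lrel E col
  symm := ⟨by
    rintro (v | i | b) (w | j | c) h
    · exact SimpleGraph.Adj.symm (show E.Adj v w from h)
    · exact h
    · exact h
    · exact h
    · exact h.symm
    · exact h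
    · exact h
    · exact h
    · exact Ne.symm h⟩
  loopless := ⟨by
    rintro (v | i | b) h
    · exact E.loopless.irrefl v h
    · rcases h with h | h <;> omega
    · exact h rfl⟩

/-- hub -/
def hub (V : Type) (t : ℕ) : LW V t := .inr (.inr false)
/-- leaf of the hub -/
def lef (V : Type) (t : ℕ) : LW V t := .inr (.inr true)
/-- path -/
def zz (V : Type) {t : ℕ} (i : Fin (t + 2)) : LW V t := .inr (.inl i)

/-- exactly one neighbour -/
def Leaf (w : LW V t) : Prop := ∃ u, ∀ x, (lg E col).Adj w x ↔ x = u

lemma not_leaf {w x y : LW V t} (hx : (lg E col).Adj w x) (hy : (lg E col).Adj w y)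
    (hxy : x ≠ y) : ¬ Leaf E col w := by
  rintro ⟨u, hu⟩
  exact hxy (((hu x).1 hx).trans ((hu y).1 hy).symm)

lemma leaf_lef (x : LW V t) : (lg E col).Adj (lef V t) x ↔ x = hub V t := by
  obtain v | i | b := x
  · simp [lg, lrel, lef, hub]
  · simp [lg, lrel, lef, hub]
  · cases b <;> simp [lg, lrel, lef, hub]

lemma leaf_end (x : LW V t) :
    (lg E col).Adj (zz V (Fin.last (t + 1))) x ↔ x = zz V ⟨t, by omega⟩ := by
  obtain v | i | b := x
  · simp only [lg, lrel, zz, reduceCtorEq, iff_false]
    have := (col v).isLt
    intro h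
    rw [Fin.val_last] at h
    omega
  · simp only [lg, lrel, zz, Sum.inr.injEq, Sum.inl.injEq, Fin.ext_iff, Fin.val_last]
    have := i.isLt
    omega
  · simp [lg, lrel, zz]

lemma leaf_iff (hcol : Function.Surjective col) (v0 : V) (w : LW V t) (hw : Leaf E col w) :
    w = lef V t ∨ w = zz V (Fin.last (t + 1)) := by
  have ht : 0 < t := Fin.pos (col v0)
  obtain v | i | b := w
  · exfalso
    refine not_leaf E col (x := hub V t) (y := zz V ⟨(col v).val, by omega⟩) ?_ ?_ ?_ hw
    · exact rfl
    · exact rfl
    · simp [hub, zz]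
  · right
    by_contra hne
    have hi : i.val ≠ t + 1 := by
      intro h
      exact hne (by simp [zz, Fin.ext_iff, h])
    have hi2 : i.val + 1 < t + 2 := by omega
    have h1 : (lg E col).Adj (Sum.inr (Sum.inl i)) (zz V ⟨i.val + 1, hi2⟩) := Or.inl rfl
    by_cases h0 : i.val = 0
    · obtain ⟨v, hv⟩ := hcol ⟨0, ht⟩
      refine not_leaf E col (x := .inl v) (y := zz V ⟨i.val + 1, hi2⟩) ?_ h1 ?_ hw
      · change (col v).val = i.val
        rw [hv, h0]
      · simp [zz]
    · refine not_leaf E col (x := zz V ⟨i.val - 1, by omega⟩) (y := zz V ⟨i.val + 1, hi2⟩)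
        ?_ h1 ?_ hw
      · right
        change i.val - 1 + 1 = i.val
        omega
      · simp only [zz, ne_eq, Sum.inr.injEq, Sum.inl.injEq, Fin.mk.injEq]
        omega
  · cases b with
    | false =>
      exfalso
      refine not_leaf E col (x := lef V t) (y := .inl v0) ?_ ?_ ?_ hw
      · exact Bool.false_ne_true
      · exact rfl
      · simp [lef]
    | true => exact Or.inl rfl

lemma adj_hub (x : LW V t) : (lg E col).Adj (hub V t) x ↔ x = lef V t ∨ ∃ v, x = .inl v := by
  obtain v | i | b := x
  · simp [lg, lrel, lef, hub]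
  · simp [lg, lrel, lef, hub]
  · cases b <;> simp [lg, lrel, lef, hub]

variable (φ : lg E col ≃g lg E col)

lemma leaf_map {w : LW V t} (h : Leaf E col w) : Leaf E col (φ w) := by
  obtain ⟨u, hu⟩ := h
  refine ⟨φ u, fun x => ?_⟩
  obtain ⟨y, rfl⟩ := φ.surjective x
  rw [φ.map_adj_iff, hu, φ.injective.eq_iff]

variable {v0 v1 : V} (hv : v0 ≠ v1) (hcol : Function.Surjective col)
include hv hcol

lemma map_lef : φ (lef V t) = lef V t := by
  have ht : 0 < t := Fin.pos (col v0)
  have h1 : Leaf E col (lef V t) := ⟨_, leaf_lef E col⟩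
  rcases leaf_iff E col hcol v0 _ (leaf_map E col φ h1) with h | h
  · exact h
  · exfalso
    have h2 : φ (hub V t) = zz V ⟨t, by omega⟩ := by
      rw [← leaf_end E col, ← h, φ.map_adj_iff, leaf_lef]
    have h3 : ∀ v, φ (.inl v) = zz V ⟨t - 1, by omega⟩ := by
      intro v
      have h4 : (lg E col).Adj (φ (hub V t)) (φ (.inl v)) := by
        rw [φ.map_adj_iff, adj_hub]
        exact Or.inr ⟨v, rfl⟩
      rw [h2] at h4
      have h5 : φ (.inl v) ≠ zz V (Fin.last (t + 1)) := by
        rw [← h]
        intro h6
        have := φ.injective h6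
        simp [lef] at this
      rcases hx : φ (.inl v) with w | i | b
      · exfalso
        rw [hx] at h4
        have h6 : (col w).val = t := h4
        have := (col w).isLt
        omega
      · rw [hx] at h4 h5
        have h6 : t + 1 = i.val ∨ i.val + 1 = t := h4
        have h7 : i.val ≠ t + 1 := by
          intro h8
          exact h5 (by simp [zz, Fin.ext_iff, h8])
        simp only [zz, Sum.inr.injEq, Sum.inl.injEq, Fin.ext_iff]
        omega
      · exfalso
        rw [hx] at h4
        exact h4
    have h4 := (h3 v0).trans (h3 v1).symm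
    have h5 := φ.injective h4
    exact hv (Sum.inl_injective h5)

lemma map_hub : φ (hub V t) = hub V t := by
  rw [← leaf_lef E col, ← map_lef E col φ hv hcol, φ.map_adj_iff, leaf_lef]

lemma map_end : φ (zz V (Fin.last (t + 1))) = zz V (Fin.last (t + 1)) := by
  have h1 : Leaf E col (zz V (Fin.last (t + 1))) := ⟨_, leaf_end E col⟩
  rcases leaf_iff E col hcol v0 _ (leaf_map E col φ h1) with h | h
  · exfalso
    rw [← map_lef E col φ hv hcol] at h
    have := φ.injective h
    simp [zz, lef] at this
  · exact h

lemma map_V (v : V) : ∃ w, φ (.inl v) = .inl w := by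
  have h1 : (lg E col).Adj (φ (hub V t)) (φ (.inl v)) := by
    rw [φ.map_adj_iff, adj_hub]
    exact Or.inr ⟨v, rfl⟩
  rw [map_hub E col φ hv hcol, adj_hub] at h1
  rcases h1 with h | h
  · exfalso
    rw [← map_lef E col φ hv hcol] at h
    have := φ.injective h
    simp [lef] at this
  · exact h

lemma map_zz (k : ℕ) : ∀ (i : Fin (t + 2)), i.val + k = t + 1 → φ (zz V i) = zz V i := by
  induction k using Nat.strong_induction_on with
  | _ k ih =>
  intro i hi
  by_cases hk : k = 0
  · subst hk
    have : i = Fin.last (t + 1) := Fin.ext (by rw [Fin.val_last]; omega)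
    rw [this]
    exact map_end E col φ hv hcol
  · have h1 : i.val + 1 < t + 2 := by omega
    have h2 := ih (k - 1) (by omega) ⟨i.val + 1, h1⟩ (by simp only; omega)
    have h3 : (lg E col).Adj (φ (zz V ⟨i.val + 1, h1⟩)) (φ (zz V i)) := by
      rw [φ.map_adj_iff]
      exact Or.inr rfl
    rw [h2] at h3
    rcases hx : φ (zz V i) with w | j | b
    · exfalso
      obtain ⟨w', hw'⟩ := map_V E col φ.symm hv hcol w
      rw [← hx] at hw'
      rw [RelIso.symm_apply_apply] at hw'
      simp [zz] at hw'
    · rw [hx] at h3
      have h4 : i.val + 1 + 1 = j.val ∨ j.val + 1 = i.val + 1 := h3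
      rcases h4 with h4 | h4
      · exfalso
        have h5 : k - 2 < k := by omega
        have hj := j.isLt
        have h6 := ih (k - 2) h5 j (by omega)
        have h7 : φ (zz V i) = φ (zz V j) := by rw [h6, hx]; rfl
        have h8 := φ.injective h7
        simp only [zz, Sum.inr.injEq, Sum.inl.injEq, Fin.ext_iff] at h8
        omega
      · simp only [zz, Sum.inr.injEq, Sum.inl.injEq, Fin.ext_iff]
        omega
    · exfalso
      rw [hx] at h3
      exact h3

end

section
variable {V : Type} {t : ℕ} {E : SimpleGraph V} {col : V → Fin t}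
variable {G : Type} [Group G] [MulAction G V]

/-- the action on the graph -/
def lact (hE : ∀ (g : G) v w, E.Adj v w → E.Adj (g • v) (g • w))
    (hc : ∀ (g : G) v, col (g • v) = col v) (g : G) : lg E col ≃g lg E col where
  toFun := Sum.map (fun v => g • v) id
  invFun := Sum.map (fun v => g⁻¹ • v) id
  left_inv := by
    rintro (v | x) <;> simp
  right_inv := by
    rintro (v | x) <;> simp
  map_rel_iff' := by
    rintro (v | i | b) (w | j | c)
    · constructor
      · intro h
        have h1 := hE g⁻¹ _ _ h
        change E.Adj v w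
        simpa using h1
      · exact fun h => hE g v w h
    · change (col (g • v)).val = j.val ↔ (col v).val = j.val
      rw [hc]
    · exact Iff.rfl
    · change (col (g • w)).val = i.val ↔ (col w).val = i.val
      rw [hc]
    · exact Iff.rfl
    · exact Iff.rfl
    · exact Iff.rfl
    · exact Iff.rfl
    · exact Iff.rfl

/-- the action as a homomorphism -/
def lhom (hE : ∀ (g : G) v w, E.Adj v w → E.Adj (g • v) (g • w))
    (hc : ∀ (g : G) v, col (g • v) = col v) : G →* (lg E col ≃g lg E col) where
  toFun := lact hE hc
  map_one' := by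
    apply RelIso.ext
    rintro (v | x)
    · exact congrArg Sum.inl (one_smul G v)
    · rfl
  map_mul' a b := by
    apply RelIso.ext
    rintro (v | x)
    · exact congrArg Sum.inl (mul_smul a b v)
    · rfl

theorem lab [Finite V] (hcol : Function.Surjective col) (hV : ∃ v v' : V, v ≠ v')
    (hE : ∀ (g : G) v w, E.Adj v w → E.Adj (g • v) (g • w))
    (hc : ∀ (g : G) v, col (g • v) = col v)
    (hfree : ∀ g : G, (∀ v : V, g • v = v) → g = 1)
    (hfull : ∀ ψ : Equiv.Perm V, (∀ v w, E.Adj v w → E.Adj (ψ v) (ψ w)) →
      (∀ v, col (ψ v) = col v) → ∃ g : G, ∀ v, ψ v = g • v) :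
    ∃ (W : Type) (_ : Finite W) (X : SimpleGraph W), Nonempty ((X ≃g X) ≃* G) ∧
      Nat.card X.edgeSet ≤ Nat.card E.edgeSet + 2 * Nat.card V + (t + 2) := by
  obtain ⟨v0, v1, hv⟩ := hV
  refine ⟨LW V t, inferInstance, lg E col, ?_, ?_⟩
  · have hbij : Function.Bijective (lhom hE hc) := by
      constructor
      · rw [injective_iff_map_eq_one]
        intro g hg
        refine hfree g fun v => ?_
        have h1 := congrArg (fun φ : lg E col ≃g lg E col => φ (.inl v)) hg
        exact Sum.inl_injective h1
      · intro φ
        choose f hf using map_V E col φ hv hcol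
        have hinj : Function.Injective f := by
          intro a b hab
          have h1 : φ (.inl a) = φ (.inl b) := by rw [hf, hf, hab]
          exact Sum.inl_injective (φ.injective h1)
        obtain ⟨g, hg⟩ := hfull (Equiv.ofBijective f (Finite.injective_iff_bijective.1 hinj))
          (by
            intro v w h
            have h1 : (lg E col).Adj (.inl v) (.inl w) := h
            rw [← φ.map_adj_iff, hf, hf] at h1
            exact h1)
          (by
            intro v
            have h1 : (lg E col).Adj (.inl v) (zz V ⟨(col v).val, by omega⟩) := rfl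
            rw [← φ.map_adj_iff, hf, map_zz E col φ hv hcol (t + 1 - (col v).val) _
              (by simp only; omega)] at h1
            exact Fin.ext h1)
        refine ⟨g, RelIso.ext ?_⟩
        rintro (v | i | b)
        · rw [hf]
          exact congrArg Sum.inl (hg v).symm
        · exact (map_zz E col φ hv hcol (t + 1 - i.val) i (by omega)).symm
        · cases b with
          | false => exact (map_hub E col φ hv hcol).symm
          | true => exact (map_lef E col φ hv hcol).symm
    exact ⟨(MulEquiv.ofBijective _ hbij).symm⟩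
  · let F : E.edgeSet ⊕ (V ⊕ (V ⊕ (Fin (t + 1) ⊕ Unit))) → Sym2 (LW V t) :=
      Sum.elim (fun e => Sym2.map Sum.inl e.1) (Sum.elim (fun v => s(.inl v, hub V t))
        (Sum.elim (fun v => s(.inl v, zz V ⟨(col v).val, by omega⟩))
          (Sum.elim (fun i => s(zz V ⟨i.val, by omega⟩, zz V ⟨i.val + 1, by omega⟩))
            (fun _ => s(hub V t, lef V t)))))
    have hF : (lg E col).edgeSet ⊆ Set.range F := by
      intro e he
      induction e using Sym2.ind with
      | _ x y =>
      rw [SimpleGraph.mem_edgeSet] at he
      obtain v | i | b := x <;> obtain w | j | c := y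
      · exact ⟨.inl ⟨s(v, w), he⟩, rfl⟩
      · refine ⟨.inr (.inr (.inl v)), ?_⟩
        have h1 : (col v).val = j.val := he
        change s(_, _) = s(_, _)
        rw [Sym2.eq_iff]
        left
        exact ⟨rfl, by simp [zz, h1]⟩
      · have h1 : c = false := he
        subst h1
        exact ⟨.inr (.inl v), rfl⟩
      · refine ⟨.inr (.inr (.inl w)), ?_⟩
        have h1 : (col w).val = i.val := he
        change s(_, _) = s(_, _)
        rw [Sym2.eq_iff]
        right
        exact ⟨rfl, by simp [zz, h1]⟩
      · have h1 : i.val + 1 = j.val ∨ j.val + 1 = i.val := he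
        have hi := i.isLt
        have hj := j.isLt
        rcases h1 with h1 | h1
        · refine ⟨.inr (.inr (.inr (.inl ⟨i.val, by omega⟩))), ?_⟩
          change s(_, _) = s(_, _)
          rw [Sym2.eq_iff]
          left
          exact ⟨rfl, by simp [zz, h1]⟩
        · refine ⟨.inr (.inr (.inr (.inl ⟨j.val, by omega⟩))), ?_⟩
          change s(_, _) = s(_, _)
          rw [Sym2.eq_iff]
          right
          exact ⟨rfl, by simp [zz, h1]⟩
      · exact absurd he id
      · have h1 : b = false := he
        subst h1
        refine ⟨.inr (.inl w), ?_⟩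
        change s(_, _) = s(_, _)
        rw [Sym2.eq_iff]
        right
        exact ⟨rfl, rfl⟩
      · exact absurd he id
      · have h1 : b ≠ c := he
        refine ⟨.inr (.inr (.inr (.inr ()))), ?_⟩
        change s(_, _) = s(_, _)
        rw [Sym2.eq_iff]
        cases b <;> cases c
        · exact absurd rfl h1
        · left; exact ⟨rfl, rfl⟩
        · right; exact ⟨rfl, rfl⟩
        · exact absurd rfl h1
    have h1 : Nat.card (lg E col).edgeSet ≤ Nat.card (Set.range F) :=
      Nat.card_mono (Set.toFinite _) hF
    have h2 : Nat.card (Set.range F) ≤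
        Nat.card (E.edgeSet ⊕ (V ⊕ (V ⊕ (Fin (t + 1) ⊕ Unit)))) :=
      Nat.card_le_card_of_surjective _ Set.rangeFactorization_surjective
    have h3 : Nat.card (E.edgeSet ⊕ (V ⊕ (V ⊕ (Fin (t + 1) ⊕ Unit)))) =
        Nat.card E.edgeSet + 2 * Nat.card V + (t + 2) := by
      simp only [Nat.card_sum, Nat.card_fin, Nat.card_unique]
      ring
    omega

end

end Pool.Agent.Q144.EG
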