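import Pool.Agent.Q144.EG.Lab

set_option autoImplicit false

/-!
From systems of labelled arrows to graphs, with few edges.
-/

namespace Pool.Agent.Q144.EG

section
variable {V M : Type} (a b : M → V)

/-- adjacency of the graph with two middle vertices on every arrow -/
def srel : V ⊕ (M × Bool) → V ⊕ (M × Bool) → Prop
  | .inl _, .inl _ => False
  | .inl v, .inr (m, c) => (c = false ∧ a m = v) ∨ (c = true ∧ b m = v)
  | .inr (m, c), .inl v => (c = false ∧ a m = v) ∨ (c = true ∧ b m = v)
  | .inr (m, c), .inr (m', c') => m = m' ∧ c ≠ c'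

/-- the graph -/
def sg : SimpleGraph (V ⊕ (M × Bool)) where
  Adj := srel a b
  symm := ⟨by
    rintro (v | ⟨m, c⟩) (w | ⟨m', c'⟩) h
    · exact h
    · exact h
    · exact h
    · exact ⟨h.1.symm, h.2.symm⟩⟩
  loopless := ⟨by
    rintro (v | ⟨m, c⟩) h
    · exact h
    · exact h.2 rfl⟩

lemma card_sg [Finite V] [Finite M] : Nat.card (sg a b).edgeSet ≤ 3 * Nat.card M := by
  let F : M ⊕ (M ⊕ M) → Sym2 (V ⊕ (M × Bool)) :=
    Sum.elim (fun m => s(.inl (a m), .inr (m, false))) (Sum.elim
      (fun m => s(.inl (b m), .inr (m, true))) (fun m => s(.inr (m, false), .inr (m, true))))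
  have hF : (sg a b).edgeSet ⊆ Set.range F := by
    intro e he
    induction e using Sym2.ind with
    | _ x y =>
    rw [SimpleGraph.mem_edgeSet] at he
    obtain v | ⟨m, c⟩ := x <;> obtain w | ⟨m', c'⟩ := y
    · exact absurd he id
    · have h1 : (c' = false ∧ a m' = v) ∨ (c' = true ∧ b m' = v) := he
      rcases h1 with ⟨rfl, rfl⟩ | ⟨rfl, rfl⟩
      · exact ⟨.inl m', rfl⟩
      · exact ⟨.inr (.inl m'), rfl⟩
    · have h1 : (c = false ∧ a m = w) ∨ (c = true ∧ b m = w) := he
      rcases h1 with ⟨rfl, rfl⟩ | ⟨rfl, rfl⟩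
      · exact ⟨.inl m, Sym2.eq_swap⟩
      · exact ⟨.inr (.inl m), Sym2.eq_swap⟩
    · have h1 : m = m' ∧ c ≠ c' := he
      obtain ⟨rfl, h2⟩ := h1
      refine ⟨.inr (.inr m), ?_⟩
      cases c <;> cases c'
      · exact absurd rfl h2
      · rfl
      · exact Sym2.eq_swap
      · exact absurd rfl h2
  have h1 : Nat.card (sg a b).edgeSet ≤ Nat.card (Set.range F) :=
    Nat.card_mono (Set.toFinite _) hF
  have h2 : Nat.card (Set.range F) ≤ Nat.card (M ⊕ (M ⊕ M)) :=
    Nat.card_le_card_of_surjective _ Set.rangeFactorization_surjective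
  rw [Nat.card_sum, Nat.card_sum] at h2
  omega

end

section
variable {G V M C J : Type} [Group G] [MulAction G V] [MulAction G M]

/-- the action on the vertices -/
def sact : MulAction G (V ⊕ (M × Bool)) where
  smul g := Sum.map (fun v => g • v) (fun x => (g • x.1, x.2))
  one_smul := by
    rintro (v | ⟨m, c⟩)
    · exact congrArg Sum.inl (one_smul G v)
    · exact congrArg (fun x => Sum.inr (x, c)) (one_smul G m)
  mul_smul g h := by
    rintro (v | ⟨m, c⟩)
    · exact congrArg Sum.inl (mul_smul g h v)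
    · exact congrArg (fun x => Sum.inr (x, c)) (mul_smul g h m)

theorem str [Finite V] [Finite M] [Finite C] [Finite J] (col : V → C) (lab' : M → J)
    (a b : M → V)
    (ha : ∀ (g : G) m, a (g • m) = g • a m) (hb : ∀ (g : G) m, b (g • m) = g • b m)
    (hcol : ∀ (g : G) v, col (g • v) = col v) (hlab : ∀ (g : G) m, lab' (g • m) = lab' m)
    (hinj : ∀ m m', lab' m = lab' m' → a m = a m' → m = m')
    (hcs : Function.Surjective col) (hls : Function.Surjective lab')
    (hV : ∃ v v' : V, v ≠ v')
    (hfree : ∀ g : G, (∀ v : V, g • v = v) → g = 1)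
    (hfull : ∀ (ψ : Equiv.Perm V) (θ : M → M), (∀ v, col (ψ v) = col v) →
      (∀ m, lab' (θ m) = lab' m) → (∀ m, a (θ m) = ψ (a m)) → (∀ m, b (θ m) = ψ (b m)) →
      ∃ g : G, ∀ v, ψ v = g • v) :
    ∃ (W : Type) (_ : Finite W) (X : SimpleGraph W), Nonempty ((X ≃g X) ≃* G) ∧
      Nat.card X.edgeSet ≤ 9 * Nat.card M + 3 * Nat.card V + 2 := by
  classical
  letI : MulAction G (V ⊕ (M × Bool)) := sact
  have hsl : ∀ (g : G) (v : V), g • (Sum.inl v : V ⊕ (M × Bool)) = Sum.inl (g • v) :=
    fun _ _ => rfl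
  have hsr : ∀ (g : G) (m : M) (c : Bool), g • (Sum.inr (m, c) : V ⊕ (M × Bool)) =
    Sum.inr (g • m, c) := fun _ _ _ => rfl
  let t := Nat.card (C ⊕ (J × Bool))
  let e : (C ⊕ (J × Bool)) ≃ Fin t := Finite.equivFin _
  let cc : V ⊕ (M × Bool) → C ⊕ (J × Bool) := Sum.map col (fun x => (lab' x.1, x.2))
  have hccs : Function.Surjective cc := by
    rintro (c | ⟨j, c⟩)
    · obtain ⟨v, rfl⟩ := hcs c
      exact ⟨.inl v, rfl⟩
    · obtain ⟨m, rfl⟩ := hls j
      exact ⟨.inr (m, c), rfl⟩
  have hcc : ∀ (g : G) x, cc (g • x) = cc x := by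
    rintro g (v | ⟨m, c⟩)
    · exact congrArg Sum.inl (hcol g v)
    · exact congrArg (fun x => Sum.inr (x, c)) (hlab g m)
  obtain ⟨W, hW, X, hX1, hX2⟩ := lab (G := G) (E := sg a b) (col := fun x => e (cc x))
    (e.surjective.comp hccs)
    (by
      obtain ⟨v, v', h⟩ := hV
      exact ⟨.inl v, .inl v', fun h' => h (Sum.inl_injective h')⟩)
    (by
      rintro g (v | ⟨m, c⟩) (w | ⟨m', c'⟩) h
      · exact h
      · rw [hsl, hsr]
        have h1 : (c' = false ∧ a m' = v) ∨ (c' = true ∧ b m' = v) := h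
        change (c' = false ∧ a (g • m') = g • v) ∨ (c' = true ∧ b (g • m') = g • v)
        rw [ha, hb]
        rcases h1 with ⟨h1, rfl⟩ | ⟨h1, rfl⟩
        · exact Or.inl ⟨h1, rfl⟩
        · exact Or.inr ⟨h1, rfl⟩
      · rw [hsl, hsr]
        have h1 : (c = false ∧ a m = w) ∨ (c = true ∧ b m = w) := h
        change (c = false ∧ a (g • m) = g • w) ∨ (c = true ∧ b (g • m) = g • w)
        rw [ha, hb]
        rcases h1 with ⟨h1, rfl⟩ | ⟨h1, rfl⟩
        · exact Or.inl ⟨h1, rfl⟩
        · exact Or.inr ⟨h1, rfl⟩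
      · rw [hsr, hsr]
        have h1 : m = m' ∧ c ≠ c' := h
        exact ⟨by rw [h1.1], h1.2⟩)
    (fun g v => by rw [hcc])
    (by
      intro g hg
      refine hfree g fun v => ?_
      exact Sum.inl_injective (hg (.inl v)))
    (by
      intro ψ' hE' hc'
      have hc2 : ∀ x, cc (ψ' x) = cc x := fun x => e.injective (hc' x)
      have h1 : ∀ v, ∃ w, ψ' (.inl v) = .inl w ∧ col w = col v := by
        intro v
        have h2 := hc2 (.inl v)
        rcases hx : ψ' (.inl v) with w | ⟨m, c⟩
        · rw [hx] at h2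
          exact ⟨w, rfl, Sum.inl_injective h2⟩
        · rw [hx] at h2
          exact absurd h2 (by simp [cc])
      have h3 : ∀ m c, ∃ m', ψ' (.inr (m, c)) = .inr (m', c) ∧ lab' m' = lab' m := by
        intro m c
        have h2 := hc2 (.inr (m, c))
        rcases hx : ψ' (.inr (m, c)) with w | ⟨m', c'⟩
        · rw [hx] at h2
          exact absurd h2 (by simp [cc])
        · rw [hx] at h2
          have h4 := Sum.inr_injective h2
          have h5 : lab' m' = lab' m := congrArg Prod.fst h4
          have h6 : c' = c := congrArg Prod.snd h4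
          subst h6
          exact ⟨m', rfl, h5⟩
      choose f hf hfc using h1
      choose θ hθ hθl using h3
      have hfi : Function.Injective f := by
        intro x y hxy
        have h2 : ψ' (.inl x) = ψ' (.inl y) := by rw [hf, hf, hxy]
        exact Sum.inl_injective (ψ'.injective h2)
      have hθe : ∀ m, θ m false = θ m true := by
        intro m
        have h2 : (sg a b).Adj (.inr (m, false)) (.inr (m, true)) := ⟨rfl, Bool.false_ne_true⟩
        have h4 := hE' _ _ h2
        rw [hθ, hθ] at h4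
        exact h4.1
      have hθa : ∀ m, a (θ m false) = f (a m) := by
        intro m
        have h2 : (sg a b).Adj (.inl (a m)) (.inr (m, false)) := Or.inl ⟨rfl, rfl⟩
        have h4 := hE' _ _ h2
        rw [hf, hθ] at h4
        rcases h4 with h4 | h4
        · exact h4.2
        · exact absurd h4.1 Bool.false_ne_true
      have hθb : ∀ m, b (θ m false) = f (b m) := by
        intro m
        have h2 : (sg a b).Adj (.inl (b m)) (.inr (m, true)) := Or.inr ⟨rfl, rfl⟩
        have h4 := hE' _ _ h2
        rw [hf, hθ] at h4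
        rcases h4 with h4 | h4
        · exact absurd h4.1.symm Bool.false_ne_true
        · rw [hθe]; exact h4.2
      obtain ⟨g, hg⟩ := hfull
        (Equiv.ofBijective f (Finite.injective_iff_bijective.1 hfi)) (fun m => θ m false)
        hfc (fun m => hθl m false) hθa hθb
      have hg' : ∀ v, f v = g • v := hg
      refine ⟨g, ?_⟩
      rintro (v | ⟨m, c⟩)
      · rw [hf, hg', hsl]
      · rw [hθ, hsr]
        have h2 : θ m c = θ m false := by
          cases c
          · rfl
          · exact (hθe m).symm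
        have h4 : θ m false = g • m := by
          apply hinj
          · rw [hθl, hlab]
          · rw [hθa, hg', ha]
        rw [h2, h4])
  refine ⟨W, hW, X, hX1, hX2.trans ?_⟩
  have h1 := card_sg a b
  have h2 : Nat.card (V ⊕ (M × Bool)) = Nat.card V + 2 * Nat.card M := by
    rw [Nat.card_sum, Nat.card_prod]
    have : Nat.card Bool = 2 := by simp
    rw [this]; ring
  have h3 : t = Nat.card C + 2 * Nat.card J := by
    change Nat.card (C ⊕ (J × Bool)) = _
    rw [Nat.card_sum, Nat.card_prod]
    have : Nat.card Bool = 2 := by simp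
    rw [this]; ring
  have h4 : Nat.card C ≤ Nat.card V := Nat.card_le_card_of_surjective _ hcs
  have h5 : Nat.card J ≤ Nat.card M := Nat.card_le_card_of_surjective _ hls
  rw [h2]
  omega

end

end Pool.Agent.Q144.EG
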