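import Pool.Agent.Q144.EG.Solv
import Pool.Agent.Q144.EG.Str

set_option autoImplicit false

/-!
Rigid systems of links give graphs with prescribed automorphism group.
-/

namespace Pool.Agent.Q144.EG

section
variable {G : Type} [Group G]

/-- objects -/
def IsOb (Λ : List (Lk G)) (K : Subgroup G) : Prop := K = ⊥ ∨ ∃ l ∈ Λ, l.L = K

lemma ob_bot {Λ : List (Lk G)} : IsOb Λ (⊥ : Subgroup G) := Or.inl rfl

lemma Rch.isOb {Λ : List (Lk G)} {K : Subgroup G} (h : Rch Λ K) : IsOb Λ K := by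
  cases h with
  | base => exact Or.inl rfl
  | step K L _ hl => exact Or.inr ⟨_, hl, rfl⟩

/-- points -/
abbrev VV (Λ : List (Lk G)) : Type := Σ K : {K : Subgroup G // IsOb Λ K}, G ⧸ K.1

/-- arrows -/
abbrev MM (Λ : List (Lk G)) : Type := Σ j : Fin Λ.length, G ⧸ (Λ.get j).K

/-- the point `g K` -/
def vv (Λ : List (Lk G)) (K : Subgroup G) (hK : IsOb Λ K) (g : G) : VV Λ := ⟨⟨K, hK⟩, (g : G ⧸ K)⟩

/-- the arrow from `g K` -/
def mm (Λ : List (Lk G)) (j : Fin Λ.length) (g : G) : MM Λ := ⟨j, (g : G ⧸ (Λ.get j).K)⟩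

lemma vv_eq {Λ : List (Lk G)} {K : Subgroup G} (hK : IsOb Λ K) {g g' : G} :
    vv Λ K hK g = vv Λ K hK g' ↔ g⁻¹ * g' ∈ K := by
  rw [← QuotientGroup.eq]
  constructor
  · intro h
    exact eq_of_heq (Sigma.mk.inj h).2
  · intro h
    exact congrArg (Sigma.mk _) h

lemma vv_congr {Λ : List (Lk G)} {K K' : Subgroup G} (hK : IsOb Λ K) (hK' : IsOb Λ K')
    (h : K = K') {g g' : G} (hg : g = g') : vv Λ K hK g = vv Λ K' hK' g' := by
  subst h; subst hg; rfl

lemma vv_surj {Λ : List (Lk G)} (v : VV Λ) : ∃ g, v = vv Λ v.1.1 v.1.2 g := by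
  obtain ⟨K, x⟩ := v
  obtain ⟨g, rfl⟩ := QuotientGroup.mk_surjective x
  exact ⟨g, rfl⟩

lemma mm_surj {Λ : List (Lk G)} (m : MM Λ) : ∃ g, m = mm Λ m.1 g := by
  obtain ⟨j, x⟩ := m
  obtain ⟨g, rfl⟩ := QuotientGroup.mk_surjective x
  exact ⟨g, rfl⟩

variable {Λ : List (Lk G)}

lemma obK (hΛ : Vld Λ) (j : Fin Λ.length) : IsOb Λ (Λ.get j).K := (hΛ _ (List.get_mem Λ j)).1.isOb
lemma obL (hΛ : Vld Λ) (j : Fin Λ.length) : IsOb Λ (Λ.get j).L := (hΛ _ (List.get_mem Λ j)).2.1.isOb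

/-- source -/
def aa (hΛ : Vld Λ) (m : MM Λ) : VV Λ := ⟨⟨(Λ.get m.1).K, obK hΛ m.1⟩, m.2⟩

/-- target -/
def bb (hΛ : Vld Λ) (m : MM Λ) : VV Λ := ⟨⟨(Λ.get m.1).L, obL hΛ m.1⟩,
  Quotient.map' (fun g => g * (Λ.get m.1).s) (by
    intro x y h
    rw [QuotientGroup.leftRel_apply] at h ⊢
    have h1 := (hΛ _ (List.get_mem Λ m.1)).2.2 _ h
    have h2 : (x * (Λ.get m.1).s)⁻¹ * (y * (Λ.get m.1).s) =
      (Λ.get m.1).s⁻¹ * (x⁻¹ * y) * (Λ.get m.1).s := by group
    rw [h2]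
    exact h1) m.2⟩

lemma aa_mm (hΛ : Vld Λ) (j : Fin Λ.length) (g : G) : aa hΛ (mm Λ j g) = vv Λ _ (obK hΛ j) g := rfl

lemma bb_mm (hΛ : Vld Λ) (j : Fin Λ.length) (g : G) :
    bb hΛ (mm Λ j g) = vv Λ _ (obL hΛ j) (g * (Λ.get j).s) := rfl

lemma smul_vv (h : G) (K : Subgroup G) (hK : IsOb Λ K) (g : G) :
    h • vv Λ K hK g = vv Λ K hK (h * g) := rfl

lemma smul_mm (h : G) (j : Fin Λ.length) (g : G) : h • mm Λ j g = mm Λ j (h * g) := rfl

lemma aa_inj (hΛ : Vld Λ) (m m' : MM Λ) (h1 : m.1 = m'.1) (h2 : aa hΛ m = aa hΛ m') : m = m' := by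
  obtain ⟨j, x⟩ := m
  obtain ⟨j', x'⟩ := m'
  have h1' : j = j' := h1
  subst h1'
  have h3 : x = x' := eq_of_heq (Sigma.mk.inj h2).2
  rw [h3]

variable [Finite G]

lemma card_M : Nat.card (MM Λ) = cst Λ := by
  rw [Nat.card_sigma]
  have h := Fin.sum_univ_fun_getElem Λ (fun l => l.K.index)
  unfold cst
  rw [← h]
  rfl

lemma card_V (hΛ : Vld Λ) : Nat.card (VV Λ) ≤ Nat.card G + Nat.card (MM Λ) := by
  rw [← Nat.card_sum]
  refine Nat.card_le_card_of_surjective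
    (Sum.elim (fun g => vv Λ ⊥ ob_bot g) (fun m => bb hΛ m)) ?_
  intro v
  obtain ⟨g, hg⟩ := vv_surj v
  rw [hg]
  rcases v.1.2 with h | ⟨l, hl, h⟩
  · exact ⟨.inl g, vv_congr _ _ h.symm rfl⟩
  · obtain ⟨j, hj⟩ := List.get_of_mem hl
    refine ⟨.inr (mm Λ j (g * (Λ.get j).s⁻¹)), ?_⟩
    rw [Sum.elim_inr, bb_mm]
    exact vv_congr _ _ (by rw [hj]; exact h) (by group)

theorem graph_of_links (hΛ : Vld Λ) (hG : 2 ≤ Nat.card G)
    (hrig : ∀ π : G → G, Sat π Λ → Md π ⊤ (⊥ : Subgroup G)) :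
    ∃ (W : Type) (_ : Finite W) (X : SimpleGraph W), Nonempty ((X ≃g X) ≃* G) ∧
      Nat.card X.edgeSet ≤ 12 * cst Λ + 3 * Nat.card G + 2 := by
  classical
  have hnt : Nontrivial G := (Finite.one_lt_card_iff_nontrivial).1 (by omega)
  obtain ⟨g0, hg0⟩ := exists_ne (1 : G)
  obtain ⟨W, hW, X, hX1, hX2⟩ := str (G := G) (V := VV Λ) (M := MM Λ)
    (C := {K : Subgroup G // IsOb Λ K}) (J := Fin Λ.length) Sigma.fst Sigma.fst
    (aa hΛ) (bb hΛ)
    (by
      intro g m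
      obtain ⟨x, hx⟩ := mm_surj m
      rw [hx, smul_mm, aa_mm, aa_mm, smul_vv])
    (by
      intro g m
      obtain ⟨x, hx⟩ := mm_surj m
      rw [hx, smul_mm, bb_mm, bb_mm, smul_vv, mul_assoc])
    (fun _ _ => rfl) (fun _ _ => rfl) (aa_inj hΛ)
    (fun K => ⟨vv Λ K.1 K.2 1, rfl⟩) (fun j => ⟨mm Λ j 1, rfl⟩)
    ⟨vv Λ ⊥ ob_bot 1, vv Λ ⊥ ob_bot g0, by
      rw [Ne, vv_eq, Subgroup.mem_bot, inv_one, one_mul]
      exact hg0⟩
    (by
      intro g hg
      have h := hg (vv Λ ⊥ ob_bot 1)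
      rw [smul_vv, vv_eq, Subgroup.mem_bot] at h
      simpa using h)
    (by
      intro ψ θ hψ hθ ha hb
      have h0 : ∀ g, ∃ g', ψ (vv Λ ⊥ ob_bot g) = vv Λ ⊥ ob_bot g' := by
        intro g
        obtain ⟨g', hg'⟩ := vv_surj (ψ (vv Λ ⊥ ob_bot g))
        refine ⟨g', ?_⟩
        conv_lhs => rw [hg']
        exact vv_congr _ _ (congrArg Subtype.val (hψ _)) rfl
      choose π hπ using h0
      have key : ∀ j, (∀ g, ψ (vv Λ _ (obK hΛ j) g) = vv Λ _ (obK hΛ j) (π g)) →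
          ∀ g, ψ (vv Λ _ (obL hΛ j) (g * (Λ.get j).s)) =
            vv Λ _ (obL hΛ j) (π g * (Λ.get j).s) := by
        intro j hj g
        have h1 : θ (mm Λ j g) = mm Λ j (π g) := by
          refine aa_inj hΛ _ _
            (show (θ (mm Λ j g)).1 = (mm Λ j (π g)).1 from hθ _) ?_
          rw [ha, aa_mm, aa_mm, hj]
        have h2 := hb (mm Λ j g)
        rw [h1, bb_mm, bb_mm] at h2
        exact h2.symm
      have hR : ∀ K, Rch Λ K → ∀ (hK : IsOb Λ K) g, ψ (vv Λ K hK g) = vv Λ K hK (π g) := by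
        intro K hK
        induction hK with
        | base => exact fun _ g => hπ g
        | step K L hK hl ih =>
          intro hL g
          obtain ⟨j, hj⟩ := List.get_of_mem hl
          have h1 : (Λ.get j).K = K := by rw [hj]
          have h2 : (Λ.get j).L = L := by rw [hj]
          have h3 : (Λ.get j).s = 1 := by rw [hj]
          have h4 := key j (by
            intro g
            have h5 : vv Λ _ (obK hΛ j) g = vv Λ K hK.isOb g := vv_congr _ _ h1 rfl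
            rw [h5, ih]
            exact vv_congr _ _ h1.symm rfl) g
          have h5 : vv Λ _ (obL hΛ j) (g * (Λ.get j).s) = vv Λ L hL g :=
            vv_congr _ _ h2 (by rw [h3, mul_one])
          have h6 : vv Λ _ (obL hΛ j) (π g * (Λ.get j).s) = vv Λ L hL (π g) :=
            vv_congr _ _ h2 (by rw [h3, mul_one])
          rw [h5, h6] at h4
          exact h4
      have hS : Sat π Λ := by
        intro l hl
        obtain ⟨j, rfl⟩ := List.get_of_mem hl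
        obtain ⟨h1, h2, -⟩ := hΛ _ hl
        constructor
        · intro g k hk
          have h3 : vv Λ _ (obL hΛ j) g = vv Λ _ (obL hΛ j) (g * k) := by
            rw [vv_eq, inv_mul_cancel_left]; exact hk
          have h4 := congrArg ψ h3
          rw [hR _ h2, hR _ h2, vv_eq] at h4
          exact h4
        · intro g
          have h3 := key j (hR _ h1 _) g
          rw [hR _ h2, vv_eq] at h3
          have h4 := (Λ.get j).L.inv_mem h3
          have h5 : ((π (g * (Λ.get j).s))⁻¹ * (π g * (Λ.get j).s))⁻¹ =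
            (π g * (Λ.get j).s)⁻¹ * π (g * (Λ.get j).s) := by group
          rw [h5] at h4
          exact h4
      have h7 := hrig π hS
      rw [md_bot] at h7
      refine ⟨π 1, fun v => ?_⟩
      obtain ⟨g, hg⟩ := vv_surj v
      rw [hg]
      have h8 : Rch Λ v.1.1 := by
        rcases v.1.2 with h | ⟨l, hl, h⟩
        · rw [h]; exact Rch.base
        · rw [← h]; exact (hΛ _ hl).2.1
      rw [hR _ h8, smul_vv]
      have h9 : π g = π 1 * g := by
        have := h7 (x := g) trivial 1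
        rwa [one_mul] at this
      rw [h9])
  refine ⟨W, hW, X, hX1, hX2.trans ?_⟩
  have h1 := card_V hΛ
  rw [card_M] at h1 ⊢
  omega

end

end Pool.Agent.Q144.EG
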