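import Mathlib

set_option autoImplicit false

/-!
Systems of links between coset spaces of a group, and maps of the group that respect them.
-/

namespace Pool.Agent.Q144.EG

/-- a link `g K ↦ g s L` between coset spaces -/
structure Lk (G : Type) [Group G] where
  K : Subgroup G
  s : G
  L : Subgroup G

section
variable {G : Type} [Group G]

/-- subgroups reachable from the trivial one by links with `s = 1` -/
inductive Rch (Λ : List (Lk G)) : Subgroup G → Prop
  | base : Rch Λ ⊥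
  | step (K L : Subgroup G) (h : Rch Λ K) (hl : (⟨K, 1, L⟩ : Lk G) ∈ Λ) : Rch Λ L

/-- validity -/
def Vld (Λ : List (Lk G)) : Prop :=
  ∀ l ∈ Λ, Rch Λ l.K ∧ Rch Λ l.L ∧ ∀ k ∈ l.K, l.s⁻¹ * k * l.s ∈ l.L

/-- number of link edges -/
noncomputable def cst (Λ : List (Lk G)) : ℕ := (Λ.map (fun l => l.K.index)).sum

/-- `π` maps cosets of `K` to cosets of `K` -/
def Ob (π : G → G) (K : Subgroup G) : Prop := ∀ g, ∀ k ∈ K, (π g)⁻¹ * π (g * k) ∈ K

/-- `π` respects the links -/
def Sat (π : G → G) (Λ : List (Lk G)) : Prop :=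
  ∀ l ∈ Λ, Ob π l.L ∧ ∀ g, (π g * l.s)⁻¹ * π (g * l.s) ∈ l.L

/-- `π (g m) ∈ π g m K` for `m ∈ M` -/
def Md (π : G → G) (M K : Subgroup G) : Prop := ∀ g, ∀ m ∈ M, (π g * m)⁻¹ * π (g * m) ∈ K

/-- links of total size at most `c` which force `Md π M K`, given `Md π ⊤ N` -/
def Gv (N M K : Subgroup G) (c : ℕ) : Prop :=
  ∃ Λ : List (Lk G), Vld Λ ∧ cst Λ ≤ c ∧ ∀ π : G → G, Sat π Λ → Md π ⊤ N → Md π M K

lemma Rch.mono {Λ Λ' : List (Lk G)} (h : ∀ l ∈ Λ, l ∈ Λ') {K : Subgroup G} (hK : Rch Λ K) :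
    Rch Λ' K := by
  induction hK with
  | base => exact Rch.base
  | step K L _ hl ih => exact Rch.step K L ih (h _ hl)

lemma vld_append {Λ Λ' : List (Lk G)} (h : Vld Λ) (h' : Vld Λ') : Vld (Λ ++ Λ') := by
  intro l hl
  rcases List.mem_append.1 hl with h1 | h1
  · obtain ⟨a, b, c⟩ := h l h1
    exact ⟨a.mono (fun _ => List.mem_append_left _), b.mono (fun _ => List.mem_append_left _), c⟩
  · obtain ⟨a, b, c⟩ := h' l h1
    exact ⟨a.mono (fun _ => List.mem_append_right _), b.mono (fun _ => List.mem_append_right _), c⟩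

lemma cst_append (Λ Λ' : List (Lk G)) : cst (Λ ++ Λ') = cst Λ + cst Λ' := by
  simp [cst]

lemma sat_append {π : G → G} {Λ Λ' : List (Lk G)} (h : Sat π (Λ ++ Λ')) :
    Sat π Λ ∧ Sat π Λ' :=
  ⟨fun l hl => h l (List.mem_append_left _ hl), fun l hl => h l (List.mem_append_right _ hl)⟩

/-- combination -/
lemma Gv.and {N M K M' K' N' M'' K'' : Subgroup G} {c c' : ℕ} (h : Gv N M K c)
    (h' : Gv N' M' K' c')
    (hc : ∀ π : G → G, Md π ⊤ N → Md π M K → (Md π ⊤ N' ∧ (Md π M' K' → Md π M'' K''))) :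
    Gv N M'' K'' (c + c') := by
  obtain ⟨Λ, h1, h2, h3⟩ := h
  obtain ⟨Λ', h1', h2', h3'⟩ := h'
  refine ⟨Λ ++ Λ', vld_append h1 h1', by rw [cst_append]; omega, ?_⟩
  intro π hπ hN
  obtain ⟨h4, h5⟩ := sat_append hπ
  obtain ⟨h6, h7⟩ := hc π hN (h3 π h4 hN)
  exact h7 (h3' π h5 h6)

lemma Gv.mono {N M K : Subgroup G} {c c' : ℕ} (h : Gv N M K c) (hc : c ≤ c') : Gv N M K c' := by
  obtain ⟨Λ, h1, h2, h3⟩ := h
  exact ⟨Λ, h1, h2.trans hc, h3⟩

/-- right factors that `π` respects -/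
def St (π : G → G) : Subgroup G where
  carrier := {h | ∀ g, π (g * h) = π g * h}
  one_mem' := by intro g; simp
  mul_mem' := by
    intro a b ha hb g
    rw [← mul_assoc, hb, ha, mul_assoc]
  inv_mem' := by
    intro a ha g
    have h := ha (g * a⁻¹)
    rw [inv_mul_cancel_right] at h
    rw [h, mul_inv_cancel_right]

lemma md_bot {π : G → G} {M : Subgroup G} : Md π M ⊥ ↔ M ≤ St π := by
  constructor
  · intro h m hm g
    have := h g m hm
    rw [Subgroup.mem_bot, inv_mul_eq_one] at this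
    exact this.symm
  · intro h g m hm
    rw [Subgroup.mem_bot, inv_mul_eq_one]
    exact (h hm g).symm

lemma vld_nil : Vld ([] : List (Lk G)) := by
  intro l hl
  simp at hl

/-- one element -/
lemma gv_elem (N : Subgroup G) (s : G) : Gv N (Subgroup.zpowers s) ⊥ (Nat.card G) := by
  refine ⟨[⟨⊥, s, ⊥⟩], ?_, ?_, ?_⟩
  · intro l hl
    rw [List.mem_singleton] at hl
    subst hl
    refine ⟨Rch.base, Rch.base, ?_⟩
    intro k hk
    rw [Subgroup.mem_bot] at hk
    simp [hk]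
  · simp [cst]
  · intro π hπ _
    obtain ⟨-, h⟩ := hπ _ (List.mem_singleton.2 rfl)
    rw [md_bot, Subgroup.zpowers_le]
    intro g
    have := h g
    rw [Subgroup.mem_bot, inv_mul_eq_one] at this
    exact this.symm

/-- several elements -/
lemma gv_elems (N : Subgroup G) : ∀ (n : ℕ) (y : Fin n → G),
    Gv N (Subgroup.closure (Set.range y)) ⊥ (n * Nat.card G) := by
  intro n
  induction n with
  | zero =>
    intro y
    refine ⟨[], vld_nil, by simp [cst], ?_⟩
    intro π _ _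
    rw [md_bot, Subgroup.closure_le]
    rintro _ ⟨i, -⟩
    exact i.elim0
  | succ n ih =>
    intro y
    have h := (gv_elem N (y 0)).and (ih (fun i => y i.succ))
      (M'' := Subgroup.closure (Set.range y)) (K'' := ⊥) (by
        intro π hN h1
        refine ⟨hN, fun h2 => ?_⟩
        rw [md_bot] at *
        rw [Subgroup.closure_le]
        rintro _ ⟨i, rfl⟩
        refine Fin.cases ?_ (fun j => ?_) i
        · exact h1 (Subgroup.mem_zpowers _)
        · exact h2 (Subgroup.subset_closure ⟨j, rfl⟩))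
    refine h.mono ?_
    rw [add_mul, one_mul, add_comm]

/-- the link to the cosets of `K` -/
lemma vld_one (K : Subgroup G) : Vld [(⟨⊥, 1, K⟩ : Lk G)] := by
  intro l hl
  rw [List.mem_singleton] at hl
  subst hl
  refine ⟨Rch.base, Rch.step ⊥ K Rch.base (List.mem_singleton.2 rfl), ?_⟩
  intro k hk
  rw [Subgroup.mem_bot] at hk
  rw [hk]
  simp

/-- a subgroup that avoids `N` -/
lemma gv_disj (N K : Subgroup G) (h : K ⊓ N = ⊥) : Gv N K ⊥ (Nat.card G) := by
  refine ⟨[⟨⊥, 1, K⟩], vld_one K, ?_, ?_⟩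
  · simp [cst]
  · intro π hπ hN g k hk
    obtain ⟨h1, -⟩ := hπ _ (List.mem_singleton.2 rfl)
    rw [← h, Subgroup.mem_inf]
    refine ⟨?_, hN g k trivial⟩
    have h2 := h1 g k hk
    have h3 : (π g * k)⁻¹ * π (g * k) = k⁻¹ * ((π g)⁻¹ * π (g * k)) := by group
    rw [h3]
    exact K.mul_mem (K.inv_mem hk) h2

end

section sub
variable {G : Type} [Group G] {M : Subgroup G}

/-- transfer of a link from a subgroup -/
def lm (l : Lk M) : Lk G := ⟨l.K.map M.subtype, l.s, l.L.map M.subtype⟩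

lemma rch_map {Λ : List (Lk M)} {K : Subgroup M} (h : Rch Λ K) :
    Rch (Λ.map lm) (K.map M.subtype) := by
  induction h with
  | base => rw [Subgroup.map_bot]; exact Rch.base
  | step K L _ hl ih =>
    exact Rch.step _ _ ih (List.mem_map.2 ⟨_, hl, rfl⟩)

lemma vld_map {Λ : List (Lk M)} (h : Vld Λ) : Vld (Λ.map lm) := by
  intro l hl
  obtain ⟨l', hl', rfl⟩ := List.mem_map.1 hl
  obtain ⟨a, b, c⟩ := h l' hl'
  refine ⟨rch_map a, rch_map b, ?_⟩
  rintro _ ⟨k, hk, rfl⟩
  exact ⟨_, c k hk, rfl⟩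

lemma cst_map (Λ : List (Lk M)) : cst (Λ.map lm) = cst Λ * M.index := by
  induction Λ with
  | nil => simp [cst]
  | cons l Λ ih =>
    simp only [cst, List.map_cons, List.sum_cons] at ih ⊢
    rw [ih, add_mul]
    congr 1
    exact Subgroup.index_map_subtype _

/-- the restricted maps -/
def rs (π : G → G) (h : Ob π M) (g : G) (m : M) : M := ⟨(π g)⁻¹ * π (g * m), h g m m.2⟩

lemma sat_rs {Λ : List (Lk M)} {π : G → G} (h : Ob π M) (hπ : Sat π (Λ.map lm)) (g : G) :
    Sat (rs π h g) Λ := by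
  intro l hl
  obtain ⟨h1, h2⟩ := hπ (lm l) (List.mem_map.2 ⟨l, hl, rfl⟩)
  constructor
  · intro m k hk
    rw [← Subgroup.mem_map_iff_mem M.subtype_injective]
    have h3 := h1 (g * m) k ⟨k, hk, rfl⟩
    have h4 : M.subtype ((rs π h g m)⁻¹ * rs π h g (m * k)) = (π (g * m))⁻¹ * π (g * m * k) := by
      simp only [rs, map_mul, map_inv, Subgroup.coe_subtype, Subgroup.coe_mul]
      rw [← mul_assoc g]
      group
    rw [h4]
    exact h3
  · intro m
    rw [← Subgroup.mem_map_iff_mem M.subtype_injective]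
    have h3 := h2 (g * m)
    have h4 : M.subtype ((rs π h g m * l.s)⁻¹ * rs π h g (m * l.s)) =
        (π (g * m) * l.s)⁻¹ * π (g * m * l.s) := by
      simp only [rs, map_mul, map_inv, Subgroup.coe_subtype, Subgroup.coe_mul]
      rw [← mul_assoc g]
      group
    rw [h4]
    exact h3

/-- transfer from a subgroup -/
lemma sub_core {N M : Subgroup G} {c : ℕ} (h : Gv (N.subgroupOf M) ⊤ (⊥ : Subgroup M) c) :
    ∃ Λ : List (Lk G), Vld Λ ∧ cst Λ ≤ c * M.index ∧
      ∀ π : G → G, Sat π Λ → Ob π M → Md π ⊤ N → Md π M ⊥ := by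
  obtain ⟨Λ, h1, h2, h3⟩ := h
  refine ⟨Λ.map lm, vld_map h1, by rw [cst_map]; exact Nat.mul_le_mul_right _ h2, ?_⟩
  intro π hπ hM hN
  rw [md_bot]
  intro m hm g
  have h4 := h3 (rs π hM g) (sat_rs hM hπ g) (by
    intro m k _
    rw [Subgroup.mem_subgroupOf]
    have h5 := hN (g * m) k trivial
    have h6 : (((rs π hM g m * k)⁻¹ * rs π hM g (m * k) : M) : G) =
        (π (g * m) * k)⁻¹ * π (g * m * k) := by
      simp only [rs, Subgroup.coe_mul, Subgroup.coe_inv]
      rw [← mul_assoc g]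
      group
    rw [h6]
    exact h5)
  rw [md_bot] at h4
  have h7 := h4 (x := ⟨m, hm⟩) trivial 1
  have h8 := congrArg (fun x : M => (x : G)) h7
  simp only [rs, one_mul, Subgroup.coe_mul, Subgroup.coe_one, mul_one, inv_mul_cancel] at h8
  rw [inv_mul_eq_iff_eq_mul] at h8
  exact h8

/-- transfer from a subgroup containing `N` -/
lemma gv_sub {N M : Subgroup G} (hNM : N ≤ M) {c : ℕ}
    (h : Gv (N.subgroupOf M) ⊤ (⊥ : Subgroup M) c) : Gv N M ⊥ (c * M.index) := by
  obtain ⟨Λ, h1, h2, h3⟩ := sub_core h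
  refine ⟨Λ, h1, h2, fun π hπ hN => h3 π hπ ?_ hN⟩
  intro g m hm
  have h4 := hNM (hN g m trivial)
  have h5 : (π g)⁻¹ * π (g * m) = m * ((π g * m)⁻¹ * π (g * m)) := by group
  rw [h5]
  exact M.mul_mem hm h4

/-- transfer from any subgroup -/
lemma gv_sub' {N M : Subgroup G} {c : ℕ}
    (h : Gv (N.subgroupOf M) ⊤ (⊥ : Subgroup M) c) : Gv N M ⊥ (Nat.card G + c * M.index) := by
  obtain ⟨Λ, h1, h2, h3⟩ := sub_core h
  refine ⟨[⟨⊥, 1, M⟩] ++ Λ, vld_append (vld_one M) h1, ?_, fun π hπ hN => ?_⟩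
  · rw [cst_append]
    have : cst [(⟨⊥, 1, M⟩ : Lk G)] = Nat.card G := by simp [cst]
    omega
  · obtain ⟨h4, h5⟩ := sat_append hπ
    exact h3 π h5 (h4 _ (List.mem_singleton.2 rfl)).1 hN

end sub

section quot
variable {G : Type} [Group G] (N : Subgroup G) [hn : N.Normal]

open Classical in
/-- a lift with `1 ↦ 1` -/
noncomputable def lf (x : G ⧸ N) : G := if x = 1 then 1 else x.out

lemma lf_one : lf N 1 = 1 := by simp [lf]

lemma mk_lf (x : G ⧸ N) : QuotientGroup.mk' N (lf N x) = x := by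
  unfold lf
  split_ifs with h
  · rw [h]; rfl
  · exact Quotient.out_eq' x

/-- transfer of a link from a quotient -/
noncomputable def lq (l : Lk (G ⧸ N)) : Lk G :=
  ⟨l.K.comap (QuotientGroup.mk' N), lf N l.s, l.L.comap (QuotientGroup.mk' N)⟩

lemma rch_comap {Λ : List (Lk (G ⧸ N))} {K : Subgroup (G ⧸ N)} (h : Rch Λ K) :
    Rch (⟨⊥, 1, N⟩ :: Λ.map (lq N)) (K.comap (QuotientGroup.mk' N)) := by
  induction h with
  | base =>
    have h1 : (⊥ : Subgroup (G ⧸ N)).comap (QuotientGroup.mk' N) = N :=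
      (MonoidHom.comap_bot _).trans (QuotientGroup.ker_mk' N)
    rw [h1]
    exact Rch.step ⊥ N Rch.base (List.mem_cons_self)
  | step K L _ hl ih =>
    refine Rch.step _ _ ih (List.mem_cons_of_mem _ (List.mem_map.2 ⟨_, hl, ?_⟩))
    simp [lq, lf_one]

lemma vld_comap {Λ : List (Lk (G ⧸ N))} (h : Vld Λ) :
    Vld (⟨⊥, 1, N⟩ :: Λ.map (lq N)) := by
  intro l hl
  rcases List.mem_cons.1 hl with rfl | hl
  · refine ⟨Rch.base, Rch.step ⊥ N Rch.base (List.mem_cons_self), ?_⟩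
    intro k hk
    rw [Subgroup.mem_bot] at hk
    rw [hk]
    simp
  · obtain ⟨l', hl', rfl⟩ := List.mem_map.1 hl
    obtain ⟨a, b, c⟩ := h l' hl'
    refine ⟨rch_comap N a, rch_comap N b, ?_⟩
    intro k hk
    have h1 := c _ hk
    simp only [lq, Subgroup.mem_comap, map_mul, map_inv, mk_lf]
    exact h1

lemma cst_comap (Λ : List (Lk (G ⧸ N))) :
    cst (⟨⊥, 1, N⟩ :: Λ.map (lq N)) = Nat.card G + cst Λ := by
  have h : ∀ Λ : List (Lk (G ⧸ N)), cst (Λ.map (lq N)) = cst Λ := by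
    intro Λ
    induction Λ with
    | nil => simp [cst]
    | cons l Λ ih =>
      simp only [cst, List.map_cons, List.sum_cons] at ih ⊢
      rw [ih]
      congr 1
      exact Subgroup.index_comap_of_surjective _ (QuotientGroup.mk'_surjective N)
  have h2 : cst ((⟨⊥, 1, N⟩ : Lk G) :: Λ.map (lq N)) = Nat.card G + cst (Λ.map (lq N)) := by
    simp [cst]
  rw [h2, h]

/-- the induced map -/
noncomputable def bar (π : G → G) (x : G ⧸ N) : G ⧸ N := QuotientGroup.mk' N (π (lf N x))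

lemma bar_mk {π : G → G} (h : Ob π N) (g : G) :
    bar N π (QuotientGroup.mk' N g) = QuotientGroup.mk' N (π g) := by
  unfold bar
  have h1 : g⁻¹ * lf N (QuotientGroup.mk' N g) ∈ N := by
    rw [← QuotientGroup.eq_one_iff, ← QuotientGroup.mk'_apply, map_mul, map_inv, mk_lf,
      inv_mul_cancel]
  have h2 := h g _ h1
  rw [mul_inv_cancel_left, ← QuotientGroup.eq_one_iff, ← QuotientGroup.mk'_apply, map_mul,
    map_inv, inv_mul_eq_one] at h2
  exact h2.symm

/-- transfer from a quotient -/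
lemma gv_quot {A : Subgroup G} {c : ℕ}
    (h : Gv (A.map (QuotientGroup.mk' N)) ⊤ (⊥ : Subgroup (G ⧸ N)) c) :
    Gv A ⊤ N (Nat.card G + c) := by
  obtain ⟨Λ, h1, h2, h3⟩ := h
  refine ⟨⟨⊥, 1, N⟩ :: Λ.map (lq N), vld_comap N h1, by rw [cst_comap]; omega, ?_⟩
  intro π hπ hA
  have hN : Ob π N := (hπ _ (List.mem_cons_self)).1
  have h4 : Sat (bar N π) Λ := by
    intro l hl
    obtain ⟨h5, h6⟩ := hπ (lq N l) (List.mem_cons_of_mem _ (List.mem_map.2 ⟨l, hl, rfl⟩))
    constructor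
    · intro x k hk
      obtain ⟨g, rfl⟩ := QuotientGroup.mk'_surjective N x
      obtain ⟨k, rfl⟩ := QuotientGroup.mk'_surjective N k
      have h7 := h5 g k hk
      rw [← map_mul, bar_mk N hN, bar_mk N hN, ← map_inv, ← map_mul]
      exact h7
    · intro x
      obtain ⟨g, rfl⟩ := QuotientGroup.mk'_surjective N x
      have h7 := h6 g
      have h8 : (lq N l).s = lf N l.s := rfl
      rw [h8] at h7
      have h9 : QuotientGroup.mk' N ((π g * lf N l.s)⁻¹ * π (g * lf N l.s)) ∈ l.L := h7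
      rw [map_mul, map_inv, map_mul, ← bar_mk N hN, ← bar_mk N hN, map_mul, mk_lf] at h9
      exact h9
  have h5 : Md (bar N π) ⊤ (A.map (QuotientGroup.mk' N)) := by
    intro x m _
    obtain ⟨g, rfl⟩ := QuotientGroup.mk'_surjective N x
    obtain ⟨m, rfl⟩ := QuotientGroup.mk'_surjective N m
    rw [← map_mul, bar_mk N hN, bar_mk N hN, ← map_mul, ← map_inv, ← map_mul]
    exact Subgroup.mem_map_of_mem _ (hA g m trivial)
  have h6 := h3 _ h4 h5
  intro g m _
  have h7 := h6 (QuotientGroup.mk' N g) (QuotientGroup.mk' N m) trivial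
  rw [← map_mul, bar_mk N hN, bar_mk N hN, ← map_mul, ← map_inv, ← map_mul, Subgroup.mem_bot,
    QuotientGroup.mk'_apply, QuotientGroup.eq_one_iff] at h7
  exact h7

end quot

end Pool.Agent.Q144.EG
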