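import Pool.Agent.H227R3.Lat.PGrp
import Pool.Agent.Q144.EG.Sch

set_option autoImplicit false

/-!
Finite `p`-groups: systems of links of linear size.
-/

namespace Pool.Agent.Q144.EG

open Pool.Agent.H227R3.Lat

/-- the rank theorem -/
theorem rank_normal {p : ℕ} [Fact p.Prime] {S : Type} [Group S] [Finite S]
    (hS : IsPGroup p S) : ∃ (r : ℕ) (E : Subgroup S), E.Normal ∧
      (∀ z ∈ Subgroup.center S, z ^ p = 1 → z ∈ E) ∧ (∀ a ∈ E, a ^ p = 1) ∧
      (∀ a ∈ E, ∀ b ∈ E, a * b = b * a) ∧ Nat.card E = p ^ r ∧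
      ∃ y : Fin (3 * r ^ 2 + r) → S, Subgroup.closure (Set.range y) = ⊤ := by
  obtain ⟨A, hAn, hAc, hAs⟩ := exists_selfcentralizing hS
  let cg : CommGroup A := { (inferInstance : Group A) with
    mul_comm := fun a b => Subtype.ext (hAc a.1 a.2 b.1 b.2) }
  let ac : DistribMulAction S (Additive A) :=
    { smul := fun s a => Additive.ofMul ⟨s * (Additive.toMul a).1 * s⁻¹, hAn.conj_mem _ (Additive.toMul a).2 s⟩
      one_smul := fun a => Subtype.ext (show (1 : S) * (Additive.toMul a).1 * (1 : S)⁻¹ = (Additive.toMul a).1 by simp)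
      mul_smul := fun s t a => Subtype.ext (show (s * t) * (Additive.toMul a).1 * (s * t)⁻¹ = s * (t * (Additive.toMul a).1 * t⁻¹) * s⁻¹ by group)
      smul_zero := fun s => Subtype.ext (show s * (1 : S) * s⁻¹ = 1 by simp)
      smul_add := fun s a b => Subtype.ext (show s * ((Additive.toMul a).1 * (Additive.toMul b).1) * s⁻¹ =
        (s * (Additive.toMul a).1 * s⁻¹) * (s * (Additive.toMul b).1 * s⁻¹) by group) }
  -- E
  let E : Subgroup S :=
    { carrier := {a | a ∈ A ∧ a ^ p = 1}
      one_mem' := ⟨A.one_mem, one_pow p⟩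
      mul_mem' := by
        rintro a b ⟨ha, ha'⟩ ⟨hb, hb'⟩
        refine ⟨A.mul_mem ha hb, ?_⟩
        rw [(show Commute a b from hAc a ha b hb).mul_pow, ha', hb', one_mul]
      inv_mem' := by
        rintro a ⟨ha, ha'⟩
        exact ⟨A.inv_mem ha, by rw [inv_pow, ha', inv_one]⟩ }
  obtain ⟨r, hr⟩ := IsPGroup.iff_card.1 (hS.to_subgroup E)
  have hr' : Nat.card {a : Additive A // p • a = 0} = p ^ r := by
    rw [← hr]
    refine Nat.card_congr ⟨fun a => ⟨(Additive.toMul a.1).1, (Additive.toMul a.1).2, ?_⟩,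
      fun a => ⟨Additive.ofMul ⟨a.1, a.2.1⟩, ?_⟩, fun a => rfl, fun a => rfl⟩
    · exact congrArg (fun z : Additive A => (Additive.toMul z).1) a.2
    · exact Subtype.ext a.2.2
  obtain ⟨N, hNcard⟩ := IsPGroup.iff_card.1 hS
  have hN : ∀ a : Additive A, p ^ N • a = 0 := by
    intro a
    apply Subtype.ext
    show ((Additive.toMul a).1) ^ (p ^ N) = 1
    rw [← hNcard]; exact pow_card_eq_one'
  -- kappa
  have hκ : Nat.card (Rank.fx (⊤ : Subgroup S) (Set.univ : Set (Additive A))) ≤
      Nat.card (Rank.fx (frattini S) (Set.univ : Set (Additive A))) * p ^ r := by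
    -- Kr = A
    have hmem : ∀ s : S, (∀ b ∈ (Set.univ : Set (Additive A)), s • b = b) ↔ s ∈ A := by
      intro s
      constructor
      · intro h
        apply hAs
        intro a ha
        have h1 := congrArg (fun z : Additive A => (Additive.toMul z).1) (h (Additive.ofMul ⟨a, ha⟩) trivial)
        have h2 : s * a * s⁻¹ = a := h1
        calc s * a = (s * a * s⁻¹) * s := by group
          _ = a * s := by rw [h2]
      · intro hs b _
        apply Subtype.ext
        show s * (Additive.toMul b).1 * s⁻¹ = (Additive.toMul b).1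
        rw [hAc s hs _ (Additive.toMul b).2]; group
    have c1 : Nat.card (Rank.fx (⊤ : Subgroup S) (Set.univ : Set (Additive A))) = Nat.card (Additive A) := by
      refine Nat.card_congr ⟨fun s => Additive.ofMul ⟨s.1, (hmem s.1).1 ((Rank.mem_fx _ _ _).1 s.2).2⟩,
        fun a => ⟨(Additive.toMul a).1, (Rank.mem_fx _ _ _).2 ⟨trivial, (hmem _).2 (Additive.toMul a).2⟩⟩,
        fun _ => rfl, fun _ => rfl⟩
    have h1 := AddSubgroup.card_eq_card_quotient_mul_card_addSubgroup (nsmulAddMonoidHom (α := Additive A) p).ker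
    have h2 : Nat.card (Additive A ⧸ (nsmulAddMonoidHom (α := Additive A) p).ker) =
        Nat.card (Rank.mp (A := Additive A) p) :=
      Nat.card_congr (QuotientAddGroup.quotientKerEquivRange _).toEquiv
    have h3 : Nat.card (nsmulAddMonoidHom (α := Additive A) p).ker = p ^ r := by
      rw [← hr']
      exact Nat.card_congr (Equiv.subtypeEquivRight (fun a => Iff.rfl))
    rw [c1, h1, h2, h3]
    apply Nat.mul_le_mul_right
    refine Nat.card_le_card_of_injective (fun x : Rank.mp (A := Additive A) p =>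
      (⟨(Additive.toMul x.1).1, ?_⟩ : Rank.fx (frattini S) (Set.univ : Set (Additive A)))) ?_
    · rw [Rank.mem_fx]
      refine ⟨?_, (hmem _).2 (Additive.toMul x.1).2⟩
      obtain ⟨b, hb⟩ := x.2
      have hb' : ((Additive.toMul b).1) ^ p = (Additive.toMul x.1).1 :=
        congrArg (fun z : Additive A => (Additive.toMul z).1) hb
      rw [← hb']
      exact pow_mem_frattini hS _
    · intro x y hxy
      have h : (Additive.toMul x.1).1 = (Additive.toMul y.1).1 :=
        congrArg (fun z : Rank.fx (frattini S) (Set.univ : Set (Additive A)) => z.1) hxy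
      exact Subtype.ext (Subtype.ext h)
  have hcard := Rank.card_le (A := Additive A) (S := S) (Fact.out : p.Prime) r hr' (frattini S)
    (fun s => pow_mem_frattini hS s) (p ^ r) hκ N hN
  obtain ⟨y, hy⟩ := gen_aux hS (3 * r ^ 2 + r) (frattini S) (by
    rw [pow_add, ← mul_assoc]; exact hcard)
  refine ⟨r, E, ⟨fun a ha s => ⟨hAn.conj_mem a ha.1 s, ?_⟩⟩,
    fun z hz hzp => ⟨hAs z fun a _ => (Subgroup.mem_center_iff.1 hz a).symm, hzp⟩,
    fun a ha => ha.2, fun a ha b hb => hAc a ha.1 b hb.1, hr, y, ?_⟩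
  · rw [conj_pow, ha.2]; group
  apply frattini_nongenerating
  rw [sup_comm]; exact hy


lemma Gv.inf {G : Type} [Group G] {A B : Subgroup G} {c : ℕ} (h : Gv A ⊤ B c) (hAB : A ⊓ B = ⊥) :
    Gv A ⊤ ⊥ c := by
  obtain ⟨Λ, h1, h2, h3⟩ := h
  refine ⟨Λ, h1, h2, fun π hπ hA g m hm => ?_⟩
  rw [← hAB]
  exact ⟨hA g m hm, h3 π hπ hA g m hm⟩

/-- a central subgroup of prime order: relative cost at most `4` -/
theorem pclaim (p : ℕ) [hp : Fact p.Prime] : ∀ (n : ℕ) (P : Type) [Group P] [Finite P],
    Nat.card P = n → IsPGroup p P → ∀ N : Subgroup P, N ≤ Subgroup.center P → Nat.card N = p →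
    Gv N ⊤ ⊥ (4 * Nat.card P) := by
  intro n
  induction n using Nat.strong_induction_on with
  | _ n ih =>
  intro P _ _ hn hP N hN hNp
  have hp2 : 2 ≤ p := hp.out.two_le
  have hPpos : 0 < Nat.card P := Nat.card_pos
  obtain ⟨r, E, hEn, hEc, hEp, hEcomm, hEcard, y, hy⟩ := rank_normal hP
  have hNE : N ≤ E := by
    intro z hz
    refine hEc z (hN hz) ?_
    have h1 : (⟨z, hz⟩ : N) ^ p = 1 := by
      rw [← hNp]; exact pow_card_eq_one'
    exact congrArg Subtype.val h1
  have hNn : N.Normal := by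
    refine ⟨fun x hx g => ?_⟩
    have h1 := Subgroup.mem_center_iff.1 (hN hx) g
    have h2 : g * x * g⁻¹ = x := by rw [h1]; group
    rw [h2]; exact hx
  by_cases hEN : E ≤ N
  · have h1 : E = N := le_antisymm hEN hNE
    have h2 : r = 1 := by
      rw [h1, hNp] at hEcard
      have h3 : p ^ 1 = p ^ r := by rw [pow_one]; exact hEcard
      exact (Nat.pow_right_injective hp2 h3).symm
    subst h2
    have h3 := gv_elems N _ y
    rw [hy] at h3
    refine h3.mono (le_of_eq ?_)
    norm_num
  · obtain ⟨x0, hx0E, hx0N⟩ := SetLike.not_le_iff_exists.1 hEN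
    have hEmn : (E.map (QuotientGroup.mk' N)).Normal :=
      Subgroup.Normal.map hEn _ (QuotientGroup.mk'_surjective N)
    obtain ⟨z, hz, hz1, hzc⟩ := exists_central_in_normal (hP.to_quotient N)
      (E.map (QuotientGroup.mk' N)) hEmn ⟨QuotientGroup.mk' N x0,
        Subgroup.mem_map_of_mem _ hx0E, fun h => hx0N ((QuotientGroup.eq_one_iff x0).1 h)⟩
    obtain ⟨a, haE, rfl⟩ := hz
    have haN : a ∉ N := fun h => hz1 ((QuotientGroup.eq_one_iff a).2 h)
    have hac : ∀ s : P, s * a * s⁻¹ * a⁻¹ ∈ N := by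
      intro s
      have h1 := hzc (QuotientGroup.mk' N s)
      rw [← map_inv, ← map_mul, ← map_mul] at h1
      have h2 : QuotientGroup.mk' N (s * a * s⁻¹ * a⁻¹) = 1 := by
        rw [map_mul, h1, map_inv, mul_inv_cancel]
      exact (QuotientGroup.eq_one_iff _).1 h2
    have ha1 : a ≠ 1 := fun h => haN (h ▸ N.one_mem)
    have hao : orderOf a = p := orderOf_eq_prime (hEp a haE) ha1
    let M : Subgroup P := Subgroup.centralizer {a}
    have hM : ∀ x, x ∈ M ↔ a * x = x * a := by
      intro x
      change x ∈ Subgroup.centralizer {a} ↔ _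
      rw [Subgroup.mem_centralizer_iff]
      simp
    have hNM : N ≤ M := by
      intro x hx
      rw [hM]
      exact Subgroup.mem_center_iff.1 (hN hx) a
    have haM : a ∈ M := (hM a).2 rfl
    let K : Subgroup P := Subgroup.zpowers a
    have hKM : K ≤ M := by
      rw [Subgroup.zpowers_le]; exact haM
    have hKcard : Nat.card K = p := by rw [Nat.card_zpowers, hao]
    have hNK : N ⊓ K = ⊥ := by
      have : Fact (Nat.card K).Prime := ⟨by rw [hKcard]; exact hp.out⟩
      rcases (N.subgroupOf K).eq_bot_or_eq_top_of_prime_card with h | h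
      · exact (Subgroup.subgroupOf_eq_bot.1 h).eq_bot
      · exact absurd ((Subgroup.subgroupOf_eq_top.1 h) (Subgroup.mem_zpowers a)) haN
    have hidx : M.index ≤ p := by
      rw [Subgroup.index_eq_card, ← hNp]
      refine Nat.card_le_card_of_injective
        (fun q : P ⧸ M => (⟨q.out * a * q.out⁻¹ * a⁻¹, hac _⟩ : N)) ?_
      intro q q' h
      have h1 : q.out * a * q.out⁻¹ * a⁻¹ = q'.out * a * q'.out⁻¹ * a⁻¹ := congrArg Subtype.val h
      have h2 : q.out * a * q.out⁻¹ = q'.out * a * q'.out⁻¹ := mul_right_cancel h1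
      have h3 : q.out⁻¹ * q'.out ∈ M := by
        rw [hM]
        calc a * (q.out⁻¹ * q'.out) = q.out⁻¹ * (q.out * a * q.out⁻¹) * q'.out := by group
          _ = q.out⁻¹ * (q'.out * a * q'.out⁻¹) * q'.out := by rw [h2]
          _ = q.out⁻¹ * q'.out * a := by group
      rw [← QuotientGroup.eq] at h3
      simpa using h3
    let K' : Subgroup M := K.subgroupOf M
    have hK'n : K'.Normal := by
      refine ⟨fun x hx g => ?_⟩
      rw [Subgroup.mem_subgroupOf] at hx ⊢
      obtain ⟨k, hk⟩ := Subgroup.mem_zpowers_iff.1 hx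
      have h1 : Commute a (g : P) := (hM g).1 g.2
      have h2 : (g : P) * (x : P) * (g : P)⁻¹ = x := by
        rw [← hk, ← (h1.zpow_left k).eq]; group
      simpa [h2] using hx
    have hK'card : Nat.card K' = p := by
      rw [← hKcard]
      exact Nat.card_congr (Subgroup.subgroupOfEquivOfLe hKM).toEquiv
    have hMcard : Nat.card (M ⧸ K') * p = Nat.card M := by
      rw [← hK'card]; exact (Subgroup.card_eq_card_quotient_mul_card_subgroup K').symm
    have hMidx : Nat.card M * M.index = Nat.card P := Subgroup.card_mul_index M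
    have hQpos : 0 < Nat.card (M ⧸ K') := Nat.card_pos
    have hidxpos : 0 < M.index := Nat.pos_of_ne_zero Subgroup.index_ne_zero_of_finite
    have hQlt : Nat.card (M ⧸ K') < n := by
      have h1 : Nat.card (M ⧸ K') * 2 ≤ Nat.card M := by
        rw [← hMcard]; exact Nat.mul_le_mul_left _ hp2
      have h2 : Nat.card M ≤ Nat.card P := Subgroup.card_le_card_group M
      omega
    have hMp : IsPGroup p M := hP.to_subgroup M
    let N' : Subgroup M := N.subgroupOf M
    have hN'K' : N' ⊓ K' = ⊥ := by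
      rw [eq_bot_iff]
      rintro x ⟨h1, h2⟩
      have h3 : (x : P) ∈ N ⊓ K := ⟨h1, h2⟩
      rw [hNK, Subgroup.mem_bot] at h3
      rw [Subgroup.mem_bot]
      exact Subtype.ext h3
    have hNQc : N'.map (QuotientGroup.mk' K') ≤ Subgroup.center (M ⧸ K') := by
      rintro _ ⟨x, hx, rfl⟩
      rw [Subgroup.mem_center_iff]
      intro g
      obtain ⟨g, rfl⟩ := QuotientGroup.mk'_surjective K' g
      rw [← map_mul, ← map_mul]
      congr 1
      apply Subtype.ext
      exact Subgroup.mem_center_iff.1 (hN hx) g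
    have hNQcard : Nat.card (N'.map (QuotientGroup.mk' K')) = p := by
      have h1 : Nat.card (N'.map (QuotientGroup.mk' K')) ∣ p := by
        have h2 := Subgroup.card_map_dvd (H := N') (QuotientGroup.mk' K')
        have h3 : Nat.card N' = p := by
          rw [← hNp]
          exact Nat.card_congr (Subgroup.subgroupOfEquivOfLe hNM).toEquiv
        rwa [h3] at h2
      rcases (Nat.dvd_prime hp.out).1 h1 with h2 | h2
      · exfalso
        have h3 : N'.map (QuotientGroup.mk' K') = ⊥ := Subgroup.eq_bot_of_card_eq _ h2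
        rw [Subgroup.map_eq_bot_iff, QuotientGroup.ker_mk'] at h3
        have h4 : N' = ⊥ := by
          rw [← hN'K']
          exact (inf_eq_left.2 h3).symm
        have h5 : Nat.card N' = p := by
          rw [← hNp]
          exact Nat.card_congr (Subgroup.subgroupOfEquivOfLe hNM).toEquiv
        rw [h4, Subgroup.card_bot] at h5
        omega
      · exact h2
    have h1 := ih _ hQlt (M ⧸ K') rfl (hMp.to_quotient K') _ hNQc hNQcard
    have h2 := (gv_quot K' h1).inf hN'K'
    have h3 := gv_sub hNM h2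
    obtain ⟨y1, hy1⟩ := gen_aux hP 1 M (by
      rw [pow_one, ← hMidx]
      exact Nat.mul_le_mul_left _ hidx)
    have h4 := h3.and (gv_elems N 1 y1) (M'' := ⊤) (K'' := ⊥) (by
      intro π hπ h5
      refine ⟨hπ, fun h6 => ?_⟩
      rw [md_bot] at *
      rw [← hy1]
      exact sup_le h5 h6)
    refine h4.mono ?_
    have h7 : 4 * Nat.card (M ⧸ K') ≤ 2 * Nat.card M := by
      rw [← hMcard]
      calc 4 * Nat.card (M ⧸ K') = 2 * (Nat.card (M ⧸ K') * 2) := by ring
        _ ≤ 2 * (Nat.card (M ⧸ K') * p) := by gcongr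
    calc (Nat.card M + 4 * Nat.card (M ⧸ K')) * M.index + 1 * Nat.card P
        ≤ (Nat.card M + 2 * Nat.card M) * M.index + 1 * Nat.card P := by gcongr
      _ = 3 * (Nat.card M * M.index) + 1 * Nat.card P := by ring
      _ = 4 * Nat.card P := by rw [hMidx]; ring

/-- any normal subgroup of a finite `p`-group: relative cost at most `10` -/
theorem pclaim' (p : ℕ) [hp : Fact p.Prime] : ∀ (n : ℕ) (P : Type) [Group P] [Finite P],
    Nat.card P = n → IsPGroup p P → ∀ N : Subgroup P, N.Normal →
    Gv N ⊤ ⊥ (10 * Nat.card P) := by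
  intro n
  induction n using Nat.strong_induction_on with
  | _ n ih =>
  intro P _ _ hn hP N hN
  have hp2 : 2 ≤ p := hp.out.two_le
  by_cases hN1 : N = ⊥
  · subst hN1
    exact ⟨[], vld_nil, by simp [cst], fun π _ h => h⟩
  · obtain ⟨x, hx1⟩ := Subgroup.ne_bot_iff_exists_ne_one.1 hN1
    obtain ⟨z, hzN, hz1, hzc⟩ := exists_central_in_normal hP N hN
      ⟨x.1, x.2, fun h => hx1 (Subtype.ext h)⟩
    have hzc' : z ∈ Subgroup.center P := by
      rw [Subgroup.mem_center_iff]
      intro g
      have h := hzc g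
      rw [mul_inv_eq_iff_eq_mul] at h
      exact h
    have hZ : p ∣ Nat.card (N ⊓ Subgroup.center P : Subgroup P) := by
      rcases (hP.to_subgroup (N ⊓ Subgroup.center P)).card_eq_or_dvd with h | h
      · exfalso
        have h1 := Subgroup.eq_bot_of_card_eq _ h
        have h2 : z ∈ N ⊓ Subgroup.center P := ⟨hzN, hzc'⟩
        rw [h1, Subgroup.mem_bot] at h2
        exact hz1 h2
      · exact h
    obtain ⟨w, hw⟩ := exists_prime_orderOf_dvd_card' p hZ
    have hwo : orderOf (w : P) = p := by rw [← hw]; exact Subgroup.orderOf_coe w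
    let N₁ : Subgroup P := Subgroup.zpowers (w : P)
    have hN₁c : N₁ ≤ Subgroup.center P := by
      rw [Subgroup.zpowers_le]; exact w.2.2
    have hN₁card : Nat.card N₁ = p := by rw [Nat.card_zpowers, hwo]
    have hN₁n : N₁.Normal := by
      refine ⟨fun x hx g => ?_⟩
      have h1 := Subgroup.mem_center_iff.1 (hN₁c hx) g
      have h2 : g * x * g⁻¹ = x := by rw [h1]; group
      rw [h2]; exact hx
    have hc : Nat.card (P ⧸ N₁) * p = Nat.card P := by
      rw [← hN₁card]; exact (Subgroup.card_eq_card_quotient_mul_card_subgroup N₁).symm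
    have hQpos : 0 < Nat.card (P ⧸ N₁) := Nat.card_pos
    have hc2 : Nat.card (P ⧸ N₁) * 2 ≤ Nat.card P := by
      rw [← hc]; exact Nat.mul_le_mul_left _ hp2
    have h1 := ih _ (by omega) (P ⧸ N₁) rfl (hP.to_quotient N₁) (N.map (QuotientGroup.mk' N₁))
      (Subgroup.Normal.map hN _ (QuotientGroup.mk'_surjective N₁))
    have h2 := gv_quot N₁ h1
    have h3 := pclaim p _ P rfl hP N₁ hN₁c hN₁card
    have h4 := h2.and h3 (M'' := ⊤) (K'' := ⊥) (fun π _ h5 => ⟨h5, fun h6 => h6⟩)
    exact h4.mono (by omega)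

end Pool.Agent.Q144.EG
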