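import Pool.Agent.Q144.EG.Pgp

set_option autoImplicit false

/-!
Finite soluble groups: systems of links of linear size.
-/

namespace Pool.Agent.Q144.EG

open Pool.Agent.H227R3.Lat

lemma exists_normal_pgroup (G : Type) [Group G] [Finite G] [Group.IsSolvable G] [Nontrivial G] :
    ∃ r : ℕ, r.Prime ∧ ∃ N : Subgroup G, N.Normal ∧ N ≠ ⊥ ∧ IsPGroup r N := by
  classical
  have hex : ∃ n, derivedSeries G n = ⊥ := Group.IsSolvable.solvable
  have h0 : Nat.find hex ≠ 0 := by
    intro h
    have h1 := Nat.find_spec hex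
    rw [h, derivedSeries_zero] at h1
    exact top_ne_bot h1
  obtain ⟨m, hm⟩ := Nat.exists_eq_succ_of_ne_zero h0
  have hA1 : derivedSeries G (m + 1) = ⊥ := by
    have h1 := Nat.find_spec hex
    rwa [hm] at h1
  have hA2 : derivedSeries G m ≠ ⊥ := Nat.find_min hex (by omega)
  set A := derivedSeries G m with hA
  have hAn : A.Normal := derivedSeries_normal G m
  have hAc : ∀ a ∈ A, ∀ b ∈ A, a * b = b * a := by
    rw [derivedSeries_succ, Subgroup.commutator_eq_bot_iff_le_centralizer] at hA1
    intro a ha b hb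
    exact ((Subgroup.mem_centralizer_iff.1 (hA1 ha)) b hb).symm
  have hcard : Nat.card A ≠ 1 := fun h => hA2 (Subgroup.eq_bot_of_card_eq _ h)
  obtain ⟨r, hr, hrd⟩ := Nat.exists_prime_and_dvd hcard
  have : Fact r.Prime := ⟨hr⟩
  let N : Subgroup G :=
    { carrier := {a | a ∈ A ∧ a ^ r = 1}
      one_mem' := ⟨A.one_mem, one_pow r⟩
      mul_mem' := by
        rintro a b ⟨ha, ha'⟩ ⟨hb, hb'⟩
        refine ⟨A.mul_mem ha hb, ?_⟩
        rw [(show Commute a b from hAc a ha b hb).mul_pow, ha', hb', one_mul]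
      inv_mem' := by
        rintro a ⟨ha, ha'⟩
        exact ⟨A.inv_mem ha, by rw [inv_pow, ha', inv_one]⟩ }
  refine ⟨r, hr, N, ⟨fun a ha s => ⟨hAn.conj_mem a ha.1 s, ?_⟩⟩, ?_, ?_⟩
  · rw [conj_pow, ha.2]; group
  · obtain ⟨w, hw⟩ := exists_prime_orderOf_dvd_card' r hrd
    intro hN
    have h1 : (w : G) ∈ N := by
      refine ⟨w.2, ?_⟩
      have h2 : w ^ r = 1 := by rw [← hw]; exact pow_orderOf_eq_one w
      exact congrArg Subtype.val h2
    rw [hN, Subgroup.mem_bot] at h1
    have h2 : w = 1 := Subtype.ext h1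
    rw [h2, orderOf_one] at hw
    exact hr.one_lt.ne hw
  · intro g
    refine ⟨1, ?_⟩
    rw [pow_one]
    exact Subtype.ext g.2.2

/-- Hall `p'`-subgroups -/
theorem hall (p : ℕ) [hp : Fact p.Prime] : ∀ (n : ℕ) (G : Type) [Group G] [Finite G],
    Nat.card G = n → Group.IsSolvable G → ∃ H : Subgroup G, ¬ p ∣ Nat.card H ∧ ∃ k, H.index = p ^ k := by
  intro n
  induction n using Nat.strong_induction_on with
  | _ n ih =>
  intro G _ _ hn hG
  rcases subsingleton_or_nontrivial G with hs | hs
  · refine ⟨⊥, ?_, 0, ?_⟩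
    · rw [Subgroup.card_bot]
      exact hp.out.one_lt.ne' ∘ Nat.dvd_one.1
    · rw [Subgroup.index_bot, pow_zero]
      exact Nat.card_of_subsingleton (1 : G)
  · obtain ⟨r, hr, N, hN, hN1, hNr⟩ := exists_normal_pgroup G
    have : Fact r.Prime := ⟨hr⟩
    obtain ⟨j, hj⟩ := IsPGroup.iff_card.1 hNr
    have hN2 : 2 ≤ Nat.card N := by
      have h1 : Nat.card N ≠ 1 := fun h => hN1 (Subgroup.eq_bot_of_card_eq _ h)
      have h2 : 0 < Nat.card N := Nat.card_pos
      omega
    have hc : Nat.card (G ⧸ N) * Nat.card N = Nat.card G :=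
      (Subgroup.card_eq_card_quotient_mul_card_subgroup N).symm
    have hQpos : 0 < Nat.card (G ⧸ N) := Nat.card_pos
    have hc2 : Nat.card (G ⧸ N) * 2 ≤ Nat.card G := by
      rw [← hc]; exact Nat.mul_le_mul_left _ hN2
    obtain ⟨H', hH1, k, hH2⟩ := ih _ (by omega) (G ⧸ N) rfl inferInstance
    set H₁ := H'.comap (QuotientGroup.mk' N) with hH₁
    have hidx : H₁.index = p ^ k := by
      rw [hH₁, Subgroup.index_comap_of_surjective _ (QuotientGroup.mk'_surjective N), hH2]
    have hH₁card : Nat.card H₁ = Nat.card H' * Nat.card N := by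
      have e1 := Subgroup.card_mul_index H₁
      have e2 := Subgroup.card_mul_index H'
      rw [hidx] at e1
      rw [hH2] at e2
      have e3 : Nat.card H₁ * p ^ k = (Nat.card H' * Nat.card N) * p ^ k := by
        rw [e1, ← hc, ← e2]; ring
      exact Nat.eq_of_mul_eq_mul_right (pow_pos hp.out.pos k) e3
    by_cases hrp : r = p
    · subst hrp
      have hNH : N ≤ H₁ := by
        intro x hx
        rw [hH₁, Subgroup.mem_comap]
        have : QuotientGroup.mk' N x = 1 := (QuotientGroup.eq_one_iff x).2 hx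
        rw [this]
        exact H'.one_mem
      have hN1card : Nat.card (N.subgroupOf H₁) = Nat.card N :=
        Nat.card_congr (Subgroup.subgroupOfEquivOfLe hNH).toEquiv
      have hNidx : (N.subgroupOf H₁).index = Nat.card H' := by
        have e1 := Subgroup.card_mul_index (N.subgroupOf H₁)
        rw [hN1card, hH₁card, mul_comm (Nat.card H')] at e1
        exact Nat.eq_of_mul_eq_mul_left (by omega) e1
      have hcop : Nat.Coprime (Nat.card (N.subgroupOf H₁)) (N.subgroupOf H₁).index := by
        rw [hN1card, hNidx, hj]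
        exact Nat.Coprime.pow_left _ ((Nat.Prime.coprime_iff_not_dvd hr).2 hH1)
      obtain ⟨C, hC⟩ := Subgroup.exists_right_complement'_of_coprime hcop
      have hCcard : Nat.card C = Nat.card H' := by
        have e1 := hC.card_mul
        rw [hN1card, hH₁card, mul_comm (Nat.card H')] at e1
        exact Nat.eq_of_mul_eq_mul_left (by omega) e1
      have hCm : Nat.card (C.map H₁.subtype) = Nat.card H' := by
        rw [← hCcard]
        exact (Nat.card_congr (C.equivMapOfInjective _ H₁.subtype_injective).toEquiv).symm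
      refine ⟨C.map H₁.subtype, by rw [hCm]; exact hH1, k + j, ?_⟩
      have e1 := Subgroup.card_mul_index (C.map H₁.subtype)
      have e2 := Subgroup.card_mul_index H'
      rw [hCm, ← hc, ← e2, hH2, hj] at e1
      have hpos : 0 < Nat.card H' := Nat.card_pos
      refine Nat.eq_of_mul_eq_mul_left hpos ?_
      rw [e1, pow_add, mul_assoc]
    · refine ⟨H₁, ?_, k, hidx⟩
      rw [hH₁card, hj, hp.out.dvd_mul]
      rintro (h | h)
      · exact hH1 h
      · exact hrp ((Nat.prime_dvd_prime_iff_eq hp.out hr).1 (hp.out.dvd_of_dvd_pow h)).symm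

/-- finite soluble groups -/
theorem sclaim : ∀ (n : ℕ) (G : Type) [Group G] [Finite G],
    Nat.card G = n → Group.IsSolvable G → Gv (⊤ : Subgroup G) ⊤ ⊥ (24 * Nat.card G) := by
  intro n
  induction n using Nat.strong_induction_on with
  | _ n ih =>
  intro G _ _ hn hG
  rcases subsingleton_or_nontrivial G with hs | hs
  · refine ⟨[], vld_nil, by simp [cst], fun π _ _ g m _ => ?_⟩
    rw [Subgroup.mem_bot]
    exact Subsingleton.elim _ _
  · obtain ⟨r, hr, N, hN, hN1, hNr⟩ := exists_normal_pgroup G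
    have : Fact r.Prime := ⟨hr⟩
    have hN2 : 2 ≤ Nat.card N := by
      have h1 : Nat.card N ≠ 1 := fun h => hN1 (Subgroup.eq_bot_of_card_eq _ h)
      have h2 : 0 < Nat.card N := Nat.card_pos
      omega
    have hc : Nat.card (G ⧸ N) * Nat.card N = Nat.card G :=
      (Subgroup.card_eq_card_quotient_mul_card_subgroup N).symm
    have hQpos : 0 < Nat.card (G ⧸ N) := Nat.card_pos
    have hc2 : Nat.card (G ⧸ N) * 2 ≤ Nat.card G := by
      rw [← hc]; exact Nat.mul_le_mul_left _ hN2
    have h1 := ih _ (by omega) (G ⧸ N) rfl inferInstance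
    have h2 : Gv (⊤ : Subgroup G) ⊤ N (Nat.card G + 24 * Nat.card (G ⧸ N)) := by
      apply gv_quot
      rw [Subgroup.map_top_of_surjective _ (QuotientGroup.mk'_surjective N)]
      exact h1
    obtain ⟨P, hNP⟩ := hNr.exists_le_sylow
    have h3 := pclaim' r _ (P : Subgroup G) rfl P.isPGroup' (N.subgroupOf P) inferInstance
    have h4 := gv_sub hNP h3
    obtain ⟨H, hH1, k, hH2⟩ := hall r _ G rfl hG
    have hHN : H ⊓ N = ⊥ := by
      apply Subgroup.inf_eq_bot_of_coprime
      obtain ⟨j, hj⟩ := IsPGroup.iff_card.1 hNr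
      rw [hj]
      exact Nat.Coprime.pow_right _ ((Nat.Prime.coprime_iff_not_dvd hr).2 hH1).symm
    have h5 := gv_disj N H hHN
    have hT : (P : Subgroup G) ⊔ H = ⊤ := by
      rw [← Subgroup.index_eq_one]
      have e1 : ((P : Subgroup G) ⊔ H).index ∣ (P : Subgroup G).index :=
        Subgroup.index_dvd_of_le le_sup_left
      have e2 : ((P : Subgroup G) ⊔ H).index ∣ H.index := Subgroup.index_dvd_of_le le_sup_right
      have e3 : Nat.Coprime (P : Subgroup G).index H.index := by
        rw [hH2]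
        exact Nat.Coprime.pow_right _ ((Nat.Prime.coprime_iff_not_dvd hr).2 P.not_dvd_index).symm
      exact Nat.eq_one_of_dvd_coprimes e3 e1 e2
    have h6 := h4.and h5 (M'' := ⊤) (K'' := ⊥) (by
      intro π hπ h7
      refine ⟨hπ, fun h8 => ?_⟩
      rw [md_bot] at *
      rw [← hT]
      exact sup_le h7 h8)
    have h7 := h2.and h6 (M'' := ⊤) (K'' := ⊥) (fun π _ h8 => ⟨h8, fun h9 => h9⟩)
    refine h7.mono ?_
    have h8 : Nat.card P * (P : Subgroup G).index = Nat.card G := Subgroup.card_mul_index _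
    have h9 : 10 * Nat.card P * (P : Subgroup G).index = 10 * Nat.card G := by
      rw [mul_assoc, h8]
    rw [h9]
    omega

/-- groups generated by soluble subgroups -/
theorem rclaim {G : Type} [Group G] [Finite G] : ∀ (r : ℕ) (S : Fin r → Subgroup G),
    (∀ i, Group.IsSolvable (S i)) → Gv (⊤ : Subgroup G) (⨆ i, S i) ⊥ (r * (25 * Nat.card G)) := by
  intro r
  induction r with
  | zero =>
    intro S _
    refine ⟨[], vld_nil, by simp [cst], fun π _ _ => ?_⟩
    rw [md_bot]
    exact iSup_le fun i => i.elim0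
  | succ r ih =>
    intro S hS
    have h1 : Gv (⊤ : Subgroup G) (S 0) ⊥ (Nat.card G + 24 * Nat.card (S 0) * (S 0).index) := by
      apply gv_sub'
      rw [Subgroup.top_subgroupOf]
      exact sclaim _ (S 0) rfl (hS 0)
    have h2 := ih (fun i => S i.succ) (fun i => hS i.succ)
    have h3 := h1.and h2 (M'' := ⨆ i, S i) (K'' := ⊥) (by
      intro π hπ h4
      refine ⟨hπ, fun h5 => ?_⟩
      rw [md_bot] at *
      refine iSup_le fun i => ?_
      refine Fin.cases h4 (fun j => ?_) i
      exact (le_iSup (fun i => S (Fin.succ i)) j).trans h5)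
    refine h3.mono (le_of_eq ?_)
    rw [mul_assoc 24, Subgroup.card_mul_index]
    ring

end Pool.Agent.Q144.EG
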